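import Pool.Agent.Lib.MP_d59d86_an.Dg.Nec2

namespace Pool.Agent.Results.MP_d59d86_an.Degenerate

open MeasureTheory Filter Topology Pool.Agent.Lib.MP_d59d86_an

/-- If `p (x) = q (x₁, …, x_k)` with `1 ≤ k < n`, `q → -∞` on `ℝ^k`, `-1 < α ≤ 0` and
`0 < Λ < Λ₁ (1 + α)`, a solution with polynomial part `p` and total curvature `Λ` exists
if and only if `Λ > Λ₁ (1 + α - k / n)`. -/
theorem result (n k : ℕ) (hn : 3 ≤ n) (hk1 : 1 ≤ k) (hk : k < n) (α Λ : ℝ) (hα : -1 < α)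
    (hα0 : α ≤ 0) (hΛ : 0 < Λ) (hΛ1 : Λ < lambdaOne n * (1 + α))
    (q : MvPolynomial (Fin k) ℝ) (hdeg : q.totalDegree ≤ n - 1)
    (hq : Tendsto (pev q) (cocompact (E k)) atBot) (p : MvPolynomial (Fin n) ℝ)
    (hp : p = MvPolynomial.rename (Fin.castLE hk.le) q) :
    (∃ (u : E n → ℝ) (C C' : ℝ), Continuous u ∧ IsWeakSol n α u ∧ ∫ x, rhs n α u x = Λ ∧
      (∀ x, u x = vpart n α u x + pev p x + C') ∧
      Tendsto (fun x => u x - pev p x + 2 * Λ / lambdaOne n * Real.log ‖x‖)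
        (cocompact (E n)) (𝓝 C)) ↔ lambdaOne n * (1 + α - k / n) < Λ := by
  obtain ⟨m, rfl⟩ : ∃ m, n = m + 1 := ⟨n - 1, by omega⟩
  exact main_deg (by omega) hk1 hk α Λ hα hα0 hΛ hΛ1 q hdeg hq p hp

end Pool.Agent.Results.MP_d59d86_an.Degenerate
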