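import Pool.Agent.Lib.MP_d59d86_an.Main

namespace Pool.Agent.Results.MP_d59d86_an.PrescribedPoly

open MeasureTheory Filter Topology Pool.Agent.Lib.MP_d59d86_an

/-- For `n ≥ 3`, `α > -1`, `0 < Λ < Λ₁ min {1, 1 + α}` and every real polynomial `p` of degree at
most `n - 1` tending to `-∞` at infinity, the equation `(-Δ)^{n/2} u = e^{n u} |x|^{n α}` has a
weak solution of total curvature `Λ` with `u - p + (2 Λ / Λ₁) log |x| → C` at infinity. -/
theorem result (n : ℕ) (hn : 3 ≤ n) (α Λ : ℝ) (hα : -1 < α) (hΛ : 0 < Λ)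
    (hΛ1 : Λ < lambdaOne n * min 1 (1 + α)) (p : MvPolynomial (Fin n) ℝ)
    (hdeg : p.totalDegree ≤ n - 1) (hp : Tendsto (pev p) (cocompact (E n)) atBot) :
    ∃ (u : E n → ℝ) (C : ℝ), IsWeakSol n α u ∧ ∫ x, rhs n α u x = Λ ∧
      Tendsto (fun x => u x - pev p x + 2 * Λ / lambdaOne n * Real.log ‖x‖)
        (cocompact (E n)) (𝓝 C) := by
  obtain ⟨k, rfl⟩ : ∃ k, n = k + 1 := ⟨n - 1, by omega⟩
  exact main (by omega) α Λ hα hΛ hΛ1 p hdeg hp

end Pool.Agent.Results.MP_d59d86_an.PrescribedPoly
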