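import Pool.Agent.Lib.MP_d59d86_an.Dg.Sym
import Pool.Agent.Lib.MP_d59d86_an.Dg.DefsS

namespace Pool.Agent.Results.MP_d59d86_an.Symmetric

open MeasureTheory Filter Topology Pool.Agent.Lib.MP_d59d86_an

/-- If `p` is invariant under a finite subgroup `G` of `O(n)` all of whose orbits off the
origin have at least `N ≥ 2` points, a `G`-invariant solution with polynomial part `p` exists for
`0 < Λ < Λ₁ min {N, 1 + α}`. -/
theorem result (n : ℕ) (hn : 3 ≤ n) (α Λ : ℝ) (hα : -1 < α) (hΛ : 0 < Λ)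
    (G : Set (E n → E n)) (hG : IsFinOrth G) (N : ℕ) (_hN2 : 2 ≤ N)
    (hN : ∀ x : E n, x ≠ 0 → N ≤ {y | ∃ g ∈ G, g x = y}.ncard)
    (hΛ1 : Λ < lambdaOne n * min (N : ℝ) (1 + α)) (p : MvPolynomial (Fin n) ℝ)
    (hdeg : p.totalDegree ≤ n - 1) (hp : Tendsto (pev p) (cocompact (E n)) atBot)
    (hinv : ∀ g ∈ G, ∀ x, pev p (g x) = pev p x) :
    ∃ (u : E n → ℝ) (C : ℝ), IsWeakSol n α u ∧ ∫ x, rhs n α u x = Λ ∧
      Tendsto (fun x => u x - pev p x + 2 * Λ / lambdaOne n * Real.log ‖x‖)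
        (cocompact (E n)) (𝓝 C) ∧ ∀ g ∈ G, ∀ x, u (g x) = u x := by
  obtain ⟨k, rfl⟩ : ∃ k, n = k + 1 := ⟨n - 1, by omega⟩
  let H : Subgroup (E (k + 1) ≃ₗᵢ[ℝ] E (k + 1)) :=
    { carrier := {e | (e : E (k + 1) → E (k + 1)) ∈ G}
      mul_mem' := fun ha hb => hG.mul _ ha _ hb
      one_mem' := hG.one
      inv_mem' := fun {e} he => by
        obtain ⟨h, hh, e1⟩ := hG.inv _ he
        have : (e⁻¹ : E (k + 1) ≃ₗᵢ[ℝ] E (k + 1)) = h := funext fun x =>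
          e.symm_apply_eq.2 (congrFun e1 x).symm
        change ⇑e⁻¹ ∈ G
        rwa [this] }
  have : Finite H := (hG.finite.preimage (DFunLike.coe_injective (F := E (k + 1) ≃ₗᵢ[ℝ]
    E (k + 1))).injOn).to_subtype
  have hsur : ∀ g ∈ G, ∃ e ∈ H, ∀ x, e x = g x := fun g hg => by
    obtain ⟨h, -, e1⟩ := hG.inv g hg
    exact ⟨LinearIsometryEquiv.ofSurjective ⟨(hG.linear g hg).mk' g, hG.norm g hg⟩
      fun x => ⟨h x, congrFun e1 x⟩, hg, fun _ => rfl⟩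
  obtain ⟨u, C, h1, h2, h3, h4⟩ := main_sym (by omega) α Λ hα hΛ H N (fun x hx => by
    refine (hN x hx).trans (le_of_eq (congrArg _ (Set.ext fun y => ⟨?_, ?_⟩)))
    · rintro ⟨g, hg, rfl⟩
      obtain ⟨e, he, e1⟩ := hsur g hg
      exact ⟨e, he, e1 x⟩
    · rintro ⟨e, he, rfl⟩
      exact ⟨e, he, rfl⟩) hΛ1 p hdeg hp fun e he => hinv e he
  refine ⟨u, C, h1, h2, h3, fun g hg x => ?_⟩
  obtain ⟨e, he, e1⟩ := hsur g hg
  rw [← e1, h4 e he]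

end Pool.Agent.Results.MP_d59d86_an.Symmetric
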